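import Mathlib
import Pool.Agent.X90.DD.Small
import Pool.Agent.X90.DC.Zth

/-!
# MP_4d52ff_nt: directness up to weight `W` and relations between values with fixed parts

Patterns are indices whose entries are fixed numbers or linear forms `b + u_1 s_1 + ⋯ + u_k s_k` in variables, for example
`()`, `(3)`, `(s_1, 3)`, `(3, s_1, 2, s_1 + s_2)`, `(2, s_2 + 4)`. The fixed part of a pattern consists of the fixed
entries in front of the first entry that depends on the variables.

We say that the grading is almost direct for fixed parts of weight `≤ W` if for all patterns `w_1, …, w_r` with fixed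
parts of weight `≤ W`, large `N` and all but `K N ^ (k - 1)` of the tuples `s ∈ [N, κ N] ^ k` each integer relation
`∑ c_i ζ(w_i(s)) = 0` with `|c_i| ≤ C ^ N` is homogeneous: its parts of the different weights vanish. Here `C` is
arbitrary and `K` does not depend on `C`.

Theorem. The sum `Z_0 + ⋯ + Z_W` is direct if and only if the grading is almost direct for fixed parts of weight `≤ W`.
So Q1 is equivalent to almost directness for all `W`. Almost directness holds for `W = 3`: for almost all tuples there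
are no inhomogeneous relations between values like `1, ζ(3), ζ(2), ζ(s), ζ(3, s), ζ(2, s, t), ζ(s + t, 3), …`.

The starting result `ShortSums` treats indices with a large first argument (patterns without fixed part). Proof
(`Pool/Agent/X90/DC`, `Pool/Agent/X90/DD`): the values with a fixed part are integer combinations of products
`ζ(p) ζ(v(s))`, where `p` is an initial segment of the fixed part and `v` a pattern without fixed part; the numbers `ζ(p)`
are replaced by a `ℚ`-basis of their span and the elements of the basis are eliminated one by one with the stuffle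
product at several tuples in general position.
-/

set_option autoImplicit false

namespace Pool.Agent.Results.MP_4d52ff_nt.AlmostDirectness

/-- `trunc [s_1, ..., s_r] m` is the sum of `∏ k_i ^ (-s_i)` over `m > k_1 > ... > k_r ≥ 1` -/
noncomputable def trunc : List ℕ → ℕ → ℝ
  | [], _ => 1
  | s :: l, m => ∑ j ∈ Finset.Ico 1 m, trunc l j / (j : ℝ) ^ s

/-- the multiple zeta value `ζ(s_1, ..., s_r)`, `s_1` belongs to the largest variable; `ζ() = 1` -/
noncomputable def mzv : List ℕ → ℝ
  | [] => 1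
  | s :: l => ∑' k : ℕ, trunc l (k + 1) / ((k + 1 : ℕ) : ℝ) ^ s

/-- indices: the empty index and `(s_1, ..., s_r)` with `s_1 ≥ 2` and all `s_i ≥ 1` -/
def IsIndex : List ℕ → Prop
  | [] => True
  | s :: l => 2 ≤ s ∧ ∀ t ∈ l, 1 ≤ t

/-- the `ℚ`-span `Z_n` of the multiple zeta values of weight `n` -/
noncomputable def weightSpace (n : ℕ) : Submodule ℚ ℝ :=
  Submodule.span ℚ (mzv '' {p | IsIndex p ∧ p.sum = n})

/-- the sum `Z_0 + ⋯ + Z_W` is direct -/
def IsDirect (W : ℕ) : Prop :=
  ∀ z : ℕ → ℝ, (∀ j ≤ W, z j ∈ weightSpace j) → ∑ j ∈ Finset.range (W + 1), z j = 0 →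
    ∀ j ≤ W, z j = 0

/-- a pattern in the variables `s_1, …, s_k`: a list of letters `(b, u)`, different from `(0, 0)`,
the first letter is also different from `(1, 0)` -/
def Pattern {k : ℕ} (w : List (ℕ × (Fin k → ℕ))) : Prop :=
  (∀ u ∈ w.head?, u.2 ≠ 0 ∨ 2 ≤ u.1) ∧ ∀ u ∈ w, u.2 ≠ 0 ∨ 1 ≤ u.1

/-- the index of a pattern: the letter `(b, u)` becomes `b + ∑ u_j s_j` -/
def index {k : ℕ} (s : Fin k → ℕ) (w : List (ℕ × (Fin k → ℕ))) : List ℕ :=
  w.map fun u => u.1 + ∑ j, u.2 j * s j

/-- the list of the numbers `b` of the letters `(b, 0)` in front of the first letter `(b, u)` with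
`u ≠ 0` -/
def fixedPart {k : ℕ} : List (ℕ × (Fin k → ℕ)) → List ℕ
  | [] => []
  | u :: w => open Classical in if u.2 = 0 then u.1 :: fixedPart w else []

/-- there are integers `c_i` of absolute value at most `H` and `n` such that `∑ c_i ζ(w_i(s)) = 0` and
the part `∑ c_i ζ(w_i(s))` over the indices `w_i(s)` of weight `n` is not zero -/
def Exceptional {k r : ℕ} (H : ℝ) (w : Fin r → List (ℕ × (Fin k → ℕ))) (s : Fin k → ℕ) : Prop :=
  ∃ (n : ℕ) (c : Fin r → ℤ), (∀ i, |(c i : ℝ)| ≤ H) ∧
    ∑ i, (c i : ℝ) * mzv (index s (w i)) = 0 ∧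
    ∑ i with (index s (w i)).sum = n, (c i : ℝ) * mzv (index s (w i)) ≠ 0

/-- for all patterns with fixed parts of weight at most `W` and all `κ` there is `K` such that for
all `C` and all sufficiently large `N` at most `K N ^ (k - 1)` of the tuples `s ∈ [N, κ N] ^ k` have
an inhomogeneous relation with coefficients of absolute value at most `C ^ N` -/
def AlmostDirect (W : ℕ) : Prop :=
  ∀ (k r κ : ℕ) (w : Fin r → List (ℕ × (Fin k → ℕ))), (∀ i, Pattern (w i)) →
    (∀ i, (fixedPart (w i)).sum ≤ W) →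
    ∃ K : ℕ, ∀ C : ℝ, ∃ N0 : ℕ, ∀ N : ℕ, N0 ≤ N →
      {s : Fin k → ℕ | (∀ j, N ≤ s j ∧ s j ≤ κ * N) ∧ Exceptional (C ^ N) w s}.ncard ≤
        K * N ^ (k - 1)

open Finset Pool.Agent.X90.DC
open Pool.Agent.X90.DB (Ad ix ex ex_ne ex_nil)

theorem trunc_eq : ∀ l m, trunc l m = Pool.Agent.Y760.ZG.hr l m := by
  intro l
  induction l with
  | nil => intro m; rw [trunc, Pool.Agent.Y760.ZG.hr]
  | cons s l ih =>
    intro m
    rw [trunc, Pool.Agent.Y760.ZG.hr]
    exact Finset.sum_congr rfl fun j _ => by rw [ih]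

theorem mzv_eq : ∀ l, mzv l = Pool.Agent.Y760.ZG.mz l := by
  intro l
  cases l with
  | nil => rw [mzv, Pool.Agent.Y760.ZG.mz]
  | cons s l =>
    rw [mzv, Pool.Agent.Y760.ZG.mz]
    exact tsum_congr fun k => by rw [trunc_eq]

theorem idx_iff : ∀ u, IsIndex u ↔ (u = [] ∨ Ad u) := by
  intro u
  cases u with
  | nil => exact ⟨fun _ => Or.inl rfl, fun _ => trivial⟩
  | cons a l => exact ⟨fun h => Or.inr h, fun h => h.resolve_left (List.cons_ne_nil _ _)⟩

theorem fixedPart_eq {k : ℕ} : ∀ w : List (ℕ × (Fin k → ℕ)), fpx w = fixedPart w := by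
  intro w
  induction w with
  | nil => rfl
  | cons u w ih =>
    rw [fixedPart, fpx, ih]

theorem weightSpace_eq (n : ℕ) : weightSpace n = Pool.Agent.X90.DD.WS n := by
  rw [weightSpace, Pool.Agent.X90.DD.WS]
  have h1 : mzv = Pool.Agent.Y760.ZG.mz := funext mzv_eq
  have h2 : {p : List ℕ | IsIndex p ∧ p.sum = n} = {p | (p = [] ∨ Ad p) ∧ p.sum = n} := by
    ext p
    rw [Set.mem_ofPred_eq, Set.mem_ofPred_eq, idx_iff]
  rw [h1, h2]

theorem almost_of_direct {W : ℕ} (hD : IsDirect W) : AlmostDirect W := by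
  classical
  intro k r κ w hw hW
  obtain ⟨m, idx, cc, p, v, hpv, hexp, K, hK⟩ := lin k r w (fun i => hw i) κ
  refine ⟨K, fun C => ?_⟩
  obtain ⟨N0, hN0⟩ := hK C
  refine ⟨N0 + 2, fun N hN => ?_⟩
  have hfin : {s : Fin k → ℕ | (∀ j, N ≤ s j ∧ s j ≤ κ * N) ∧
      Exceptional (C ^ N) w s}.Finite := by
    refine (Fintype.piFinset fun _ : Fin k => Finset.Icc N (κ * N)).finite_toSet.subset ?_
    rintro s ⟨hs, -⟩
    rw [Finset.mem_coe, Fintype.mem_piFinset]
    exact fun j => Finset.mem_Icc.2 (hs j)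
  rw [Set.ncard_eq_toFinset_card _ hfin]
  refine hN0 N (by omega) hfin.toFinset fun s hs => ?_
  rw [Set.Finite.mem_toFinset] at hs
  obtain ⟨hs, n, c, hcH, hc0, hc1⟩ := hs
  have hs2 : ∀ j, 2 ≤ s j := fun j => le_trans (by omega) (hs j).1
  have hix : ∀ i, index s (w i) = ix s (w i) := fun i => rfl
  refine ⟨hs, c, hcH, by simpa only [hix, mzv_eq] using hc0, ?_⟩
  by_contra hcon
  push Not at hcon
  apply hc1
  -- the part of weight `n`
  set d : Fin r → ℤ := fun i => if (index s (w i)).sum = n then c i else 0 with hd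
  have hpW : ∀ j, (p j).sum ≤ W := by
    intro j
    obtain ⟨t, ht⟩ := (hpv j).2.1
    have g3 := hW (idx j)
    rw [← fixedPart_eq, ← ht, List.sum_append] at g3
    omega
  have hmem : ∀ j, mzv (p j) ∈ weightSpace (p j).sum := fun j =>
    Submodule.subset_span ⟨p j, ⟨(idx_iff _).2 (hpv j).1, rfl⟩, rfl⟩
  have h1 := hexp ℝ Pool.Agent.Y760.ZG.mz mz_stuffle s hs2 d
  have hexR : ∀ u, ex Pool.Agent.Y760.ZG.mz u = mzv u := by
    intro u
    rw [mzv_eq]
    by_cases h : u = []
    · rw [h, ex_nil, Pool.Agent.Y760.ZG.mz]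
    · rw [ex_ne _ h]
  simp only [hexR] at h1
  have h2 : ∑ i with (index s (w i)).sum = n, (c i : ℝ) * mzv (index s (w i)) =
      ∑ i, (d i : ℝ) * mzv (ix s (w i)) := by
    rw [sum_filter]
    refine sum_congr rfl fun i _ => ?_
    simp only [hd]
    split_ifs with h
    · rw [hix]
    · rw [Int.cast_zero, zero_mul]
  rw [h2, h1]
  rw [← sum_fiberwise_of_maps_to (s := univ) (t := univ.image fun j => ix s (v j))
    (g := fun j => ix s (v j)) (fun j _ => mem_image_of_mem _ (mem_univ j))]
  refine sum_eq_zero fun u _ => ?_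
  have h3 : ∑ j with ix s (v j) = u, ((d (idx j) * cc j : ℤ) : ℝ) *
      (mzv (p j) * mzv (ix s (v j))) =
      (∑ j with ix s (v j) = u, ((d (idx j) * cc j : ℤ) : ℝ) * mzv (p j)) * mzv u := by
    rw [sum_mul]
    refine sum_congr rfl fun j hj => ?_
    rw [mem_filter] at hj
    rw [hj.2]
    ring
  rw [h3]
  -- the homogeneous parts
  set z : ℕ → ℝ := fun q => ∑ j with ix s (v j) = u ∧ (p j).sum = q,
    ((c (idx j) * cc j : ℤ) : ℝ) * mzv (p j) with hz
  have hz1 : ∀ q ≤ W, z q ∈ weightSpace q := by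
    intro q _
    refine Submodule.sum_mem _ fun j hj => ?_
    rw [mem_filter] at hj
    have h4 := hmem j
    rw [hj.2.2] at h4
    have h5 := Submodule.smul_mem (weightSpace q) ((c (idx j) * cc j : ℤ) : ℚ) h4
    rw [Rat.smul_def] at h5
    exact_mod_cast h5
  have hz2 : ∑ q ∈ range (W + 1), z q = 0 := by
    rw [← hcon u]
    have h4 := sum_fiberwise_of_maps_to (s := univ.filter fun j => ix s (v j) = u)
      (t := range (W + 1)) (g := fun j => (p j).sum)
      (fun j _ => mem_range.2 (Nat.lt_succ_of_le (hpW j)))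
      (fun j => ((c (idx j) * cc j : ℤ) : ℝ) * Pool.Agent.Y760.ZG.mz (p j))
    rw [← h4]
    refine sum_congr rfl fun q _ => ?_
    simp only [hz]
    rw [filter_filter]
    exact sum_congr rfl fun j _ => by rw [mzv_eq]
  have hz3 := hD z hz1 hz2
  by_cases hun : u.sum ≤ n ∧ n - u.sum ≤ W
  · have h4 : ∑ j with ix s (v j) = u, ((d (idx j) * cc j : ℤ) : ℝ) * mzv (p j) =
        z (n - u.sum) := by
      simp only [hz]
      rw [← filter_filter, sum_filter (p := fun j => (p j).sum = n - u.sum)]
      refine sum_congr rfl fun j hj => ?_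
      rw [mem_filter] at hj
      have g1 := (hpv j).2.2.2 s
      rw [hj.2] at g1
      simp only [hd, hix]
      by_cases h5 : (p j).sum = n - u.sum
      · rw [if_pos h5, if_pos (by omega)]
      · rw [if_neg h5, if_neg (by omega), zero_mul, Int.cast_zero, zero_mul]
    rw [h4, hz3 _ hun.2, zero_mul]
  · have h4 : ∑ j with ix s (v j) = u, ((d (idx j) * cc j : ℤ) : ℝ) * mzv (p j) = 0 := by
      refine sum_eq_zero fun j hj => ?_
      rw [mem_filter] at hj
      have g1 := (hpv j).2.2.2 s
      rw [hj.2] at g1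
      have g2 := hpW j
      simp only [hd, hix]
      rw [if_neg (by
        intro h5
        apply hun
        omega), zero_mul, Int.cast_zero, zero_mul]
    rw [h4, zero_mul]

theorem direct_of_almost {W : ℕ} (hA : AlmostDirect W) : IsDirect W := by
  classical
  intro z hz hsum
  have h1 : ∀ j, j ≤ W → ∃ l : List ℕ →₀ ℚ, l ∈ Finsupp.supported ℚ ℚ
      {p : List ℕ | IsIndex p ∧ p.sum = j} ∧ Finsupp.linearCombination ℚ mzv l = z j := by
    intro j hj
    have h2 := hz j hj
    rw [weightSpace, Finsupp.mem_span_image_iff_linearCombination] at h2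
    exact h2
  choose! l hl1 hl2 using h1
  set S : Finset (List ℕ) := (range (W + 1)).biUnion fun j => (l j).support with hS
  have hSp : ∀ p ∈ S, IsIndex p ∧ p.sum ≤ W := by
    intro p hp
    rw [hS, mem_biUnion] at hp
    obtain ⟨j, hj, hp⟩ := hp
    rw [mem_range] at hj
    have h2 := (Finsupp.mem_supported ℚ _).1 (hl1 j (by omega)) hp
    exact ⟨h2.1, by rw [h2.2]; omega⟩
  obtain ⟨Δ, hΔ, a, ha⟩ := Pool.Agent.X90.DA.common_den (fun p : S => l p.1.sum p.1)
  -- the homogeneous parts
  have hpart : ∀ n ≤ W, ∑ p ∈ S with p.sum = n, ((l p.sum p : ℚ) : ℝ) * mzv p = z n := by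
    intro n hn
    rw [← hl2 n hn, Finsupp.linearCombination_apply, Finsupp.sum]
    symm
    refine (sum_subset (s₁ := (l n).support) (fun p hp => ?_) fun p hp hp' => ?_).trans
      (sum_congr rfl fun p hp => ?_)
    · have h2 := (Finsupp.mem_supported ℚ _).1 (hl1 n hn) hp
      rw [mem_filter, hS, mem_biUnion]
      exact ⟨⟨n, mem_range.2 (by omega), hp⟩, h2.2⟩
    · rw [Finsupp.notMem_support_iff.1 hp', zero_smul]
    · rw [mem_filter] at hp
      rw [hp.2, Rat.smul_def]
  set e := S.equivFin with he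
  set w : Fin S.card → List (ℕ × (Fin 1 → ℕ)) := fun i => fp (e.symm i).1 with hw
  have hfix : ∀ p : List ℕ, fixedPart (fp p : List (ℕ × (Fin 1 → ℕ))) = p := by
    intro p
    induction p with
    | nil => rfl
    | cons b p ih =>
      show fixedPart ((b, 0) :: fp p) = _
      rw [fixedPart, if_pos rfl, ih]
  have hindex : ∀ (s : Fin 1 → ℕ) i, index s (w i) = (e.symm i).1 := fun s i => ix_fp s _
  obtain ⟨K, hK⟩ := hA 1 S.card 2 w (fun i => by
    have h2 := (hSp _ (e.symm i).2).1
    constructor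
    · intro u hu
      rw [hw] at hu
      rcases hp : (e.symm i).1 with _ | ⟨b, q⟩
      · simp only [hp] at hu
        simp [fp] at hu
      · simp only [hp] at hu
        rw [hp] at h2
        have hu' : u = (b, 0) := by
          simp only [fp, List.map_cons, List.head?_cons, Option.mem_some_iff] at hu
          exact hu.symm
        rw [hu']
        exact Or.inr h2.1
    · intro u hu
      have hu' : u ∈ (fp (e.symm i).1 : List (ℕ × (Fin 1 → ℕ))) := hu
      rw [fp, List.mem_map] at hu'
      obtain ⟨b, hb, rfl⟩ := hu'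
      right
      rcases hp : (e.symm i).1 with _ | ⟨b', q⟩
      · rw [hp] at hb
        exact absurd hb List.not_mem_nil
      · rw [hp] at hb h2
        rcases List.mem_cons.1 hb with rfl | hb
        · exact le_trans (by norm_num) h2.1
        · exact h2.2 b hb) (fun i => by
      rw [hw, hfix]
      exact (hSp _ (e.symm i).2).2)
  set H : ℝ := 1 + ∑ i : Fin S.card, |(a (e.symm i) : ℝ)| with hH
  have hH1 : 1 ≤ H := by
    rw [hH]
    exact le_add_of_nonneg_right (by positivity)
  obtain ⟨N0, hN0⟩ := hK H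
  obtain ⟨N, hN, hN1, hlt⟩ := bx_large (k := 1) (κ := 2) le_rfl le_rfl K N0
  obtain ⟨s, hs, hne⟩ : ∃ s ∈ bx 1 2 N, ¬ Exceptional (H ^ N) w s := by
    by_contra hcon
    push Not at hcon
    have h2 := hN0 N hN
    have h3 : {s : Fin 1 → ℕ | (∀ j, N ≤ s j ∧ s j ≤ 2 * N) ∧ Exceptional (H ^ N) w s} =
        (bx 1 2 N : Set (Fin 1 → ℕ)) := by
      ext s
      rw [Finset.mem_coe, mem_bx]
      exact ⟨fun h => h.1, fun h => ⟨h, hcon s (mem_bx.2 h)⟩⟩
    rw [h3, Set.ncard_coe_finset] at h2
    omega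
  -- the relation
  have hsumS : ∀ (f : List ℕ → ℝ) (P : List ℕ → Prop) [DecidablePred P],
      ∑ i : Fin S.card with P (e.symm i).1, f (e.symm i).1 = ∑ p ∈ S with P p, f p := by
    intro f P _
    rw [sum_filter, sum_filter, ← sum_coe_sort S, ← e.symm.sum_comp]
  have hval : ∀ (i : Fin S.card), ((a (e.symm i) : ℤ) : ℝ) =
      (Δ : ℝ) * ((l (e.symm i).1.sum (e.symm i).1 : ℚ) : ℝ) := by
    intro i
    have h2 := congrArg (fun y : ℚ => (y : ℝ)) (ha (e.symm i))
    push_cast at h2
    exact h2.symm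
  have htot : ∑ i, ((a (e.symm i) : ℤ) : ℝ) * mzv (index s (w i)) = 0 := by
    have h2 : ∀ i, ((a (e.symm i) : ℤ) : ℝ) * mzv (index s (w i)) =
        (fun p : List ℕ => (Δ : ℝ) * (((l p.sum p : ℚ) : ℝ) * mzv p)) (e.symm i).1 := by
      intro i
      rw [hindex, hval i]
      ring
    have h3 := hsumS (fun p : List ℕ => (Δ : ℝ) * (((l p.sum p : ℚ) : ℝ) * mzv p))
      (fun _ => True)
    rw [filter_true, filter_true] at h3
    rw [sum_congr rfl fun i _ => h2 i, h3, ← mul_sum,
      ← sum_fiberwise_of_maps_to (s := S) (t := range (W + 1)) (g := fun p => p.sum)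
        (fun p hp => mem_range.2 (Nat.lt_succ_of_le (hSp p hp).2)),
      sum_congr rfl fun n hn => hpart n (by rw [mem_range] at hn; omega), hsum, mul_zero]
  intro n hn
  by_contra hzn
  apply hne
  refine ⟨n, fun i => a (e.symm i), fun i => ?_, htot, ?_⟩
  · have h2 := single_le_sum (f := fun i : Fin S.card => |(a (e.symm i) : ℝ)|)
      (fun _ _ => abs_nonneg _) (mem_univ i)
    refine le_trans ?_ (le_self_pow₀ hH1 (by omega : N ≠ 0))
    rw [hH]
    linarith
  · have h2 : ∀ i, ((a (e.symm i) : ℤ) : ℝ) * mzv (index s (w i)) =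
        (fun p : List ℕ => (Δ : ℝ) * (((l p.sum p : ℚ) : ℝ) * mzv p)) (e.symm i).1 := by
      intro i
      rw [hindex, hval i]
      ring
    have h3 := hsumS (fun p : List ℕ => (Δ : ℝ) * (((l p.sum p : ℚ) : ℝ) * mzv p))
      (fun p => p.sum = n)
    simp only [hindex s]
    simp only [hindex s] at h2
    rw [sum_congr rfl fun i _ => h2 i, h3, ← mul_sum, hpart n hn]
    exact mul_ne_zero (by exact_mod_cast hΔ) hzn

theorem direct_three : IsDirect 3 := by
  intro z hz hsum
  simp only [weightSpace_eq] at hz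
  exact Pool.Agent.X90.DD.direct_three z hz hsum

/-- **Directness and almost directness.** For every `W`, the sum `Z_0 + ⋯ + Z_W` is direct if and only if for all
patterns with fixed parts of weight `≤ W` almost all relations of height `C ^ N` are homogeneous; both hold for
`W = 3`. -/
theorem result : (∀ W : ℕ, IsDirect W ↔ AlmostDirect W) ∧ AlmostDirect 3 :=
  ⟨fun _ => ⟨almost_of_direct, direct_of_almost⟩, almost_of_direct direct_three⟩

end Pool.Agent.Results.MP_4d52ff_nt.AlmostDirectness
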