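import Pool.Agent.X27.MZ.Amp
import Pool.Agent.H447R2.MZ.Tup

/-!
# The sum of the weight spaces of multiple zeta values is direct, or very small

Let `Z_k` be the `ℚ`-span of the multiple zeta values of weight `k`.

Theorem (unconditional).
* If the sum `Z_0 + ... + Z_p` is not direct then
  `dim (Z_0 + ... + Z_{n+p}) ≤ dim Z_{n+1} + ... + dim Z_{n+p}` for all `n`: the dimension of the sum of all weights up
  to `n + p` is at most the sum of the last `p` dimensions.
* Hence Q1 holds if and only if `dim (Z_0 + ... + Z_n) / (dim Z_0 + ... + dim Z_n)` tends to `1`.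

Proof. Let `H ⊂ ℝ[X]` be the set of the polynomials whose coefficient of `X^k` is in `Z_k`; this is a subring, as
`Z_j Z_k ⊂ Z_{j+k}`, without zero divisors. A nontrivial relation is an element `ξ ≠ 0` of `H` of degree at most `p` with
`ξ(1) = 0`, and `ξ H` has the same property. For the second part: `dim Z_k < 2^k`, so the sum of the dimensions
does not grow faster than exponentially.
-/

set_option autoImplicit false

open Filter Topology Polynomial

namespace Pool.Agent.Results.MP_4d52ff_nt.DirectOrSmall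

/-- The `ℚ`-span of the multiple zeta values of weight `j`. -/
noncomputable def Z (j : ℕ) : Submodule ℚ ℝ :=
  Submodule.span ℚ
    {x : ℝ | ∃ t : ℕ, ∃ k : Fin t → ℕ,
      (∀ i, 1 ≤ k i) ∧ (∀ h : 0 < t, 2 ≤ k ⟨0, h⟩) ∧ (∑ i, k i) = j ∧
      x = ∑' n : {n : Fin t → ℕ // StrictAnti n ∧ ∀ i, 1 ≤ n i},
            ∏ i, (((n.1 i : ℕ) : ℝ) ^ (k i))⁻¹}

/-- The sum `Z_0 + ... + Z_p` is direct. -/
def IsDirect (p : ℕ) : Prop :=
  ∀ z : ℕ → ℝ, (∀ j ≤ p, z j ∈ Z j) → (∑ j ∈ Finset.range (p + 1), z j) = 0 → ∀ j ≤ p, z j = 0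

/-- The sum `Z_0 + ... + Z_n`. -/
noncomputable def V (n : ℕ) : Submodule ℚ ℝ := ⨆ k ∈ Finset.range (n + 1), Z k

/-- The sum of the dimensions of `Z_0, ..., Z_n`. -/
noncomputable def A (n : ℕ) : ℕ := ∑ k ∈ Finset.range (n + 1), Module.finrank ℚ (Z k)

theorem Z_eq (n : ℕ) : Z n = Pool.Agent.H447R2.MZ.Zs n := rfl

theorem Z_le (n : ℕ) : Z n ≤ Submodule.span ℚ
    (Set.range fun c : Composition n => Pool.Agent.H447R2.MZ.val c.blocks) := by
  rw [Z_eq, Pool.Agent.H447R2.MZ.Zs_eq]
  refine Submodule.span_mono ?_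
  rintro _ ⟨s, hs, h, rfl⟩
  exact ⟨⟨s, fun hi => hs.1 _ hi, h⟩, rfl⟩

instance (n : ℕ) : FiniteDimensional ℚ (Z n) :=
  have : FiniteDimensional ℚ (Submodule.span ℚ
      (Set.range fun c : Composition n => Pool.Agent.H447R2.MZ.val c.blocks)) :=
    FiniteDimensional.span_of_finite ℚ (Set.finite_range _)
  Submodule.finiteDimensional_of_le (Z_le n)

theorem finrank_Z_le (n : ℕ) : Module.finrank ℚ (Z n) ≤ 2 ^ n := by
  have : FiniteDimensional ℚ (Submodule.span ℚ
      (Set.range fun c : Composition n => Pool.Agent.H447R2.MZ.val c.blocks)) :=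
    FiniteDimensional.span_of_finite ℚ (Set.finite_range _)
  refine (Submodule.finrank_mono (Z_le n)).trans ((finrank_range_le_card _).trans ?_)
  rw [composition_card]
  exact Nat.pow_le_pow_right (by norm_num) (by omega)

theorem A_succ (n : ℕ) : A (n + 1) = A n + Module.finrank ℚ (Z (n + 1)) := Finset.sum_range_succ _ _

theorem A_le (n : ℕ) : A n ≤ 2 ^ (n + 1) := by
  induction n with
  | zero =>
    have := finrank_Z_le 0
    unfold A
    simp only [zero_add, Finset.sum_range_one]
    omega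
  | succ n ih =>
    have := finrank_Z_le (n + 1)
    rw [A_succ]
    calc A n + Module.finrank ℚ (Z (n + 1)) ≤ 2 ^ (n + 1) + 2 ^ (n + 1) := by omega
      _ = 2 ^ (n + 1 + 1) := by ring

theorem one_mem : (1 : ℝ) ∈ Z 0 := Pool.Agent.H447R2.MZ.one_mem

theorem one_le_A (n : ℕ) : 1 ≤ A n := by
  have h1 : 1 ≤ Module.finrank ℚ (Z 0) := by
    rw [Nat.one_le_iff_ne_zero]
    intro h
    rw [Submodule.finrank_eq_zero] at h
    have := one_mem
    rw [h] at this
    exact one_ne_zero ((Submodule.mem_bot ℚ).1 this)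
  refine h1.trans ?_
  unfold A
  exact Finset.single_le_sum (f := fun k => Module.finrank ℚ (Z k)) (fun _ _ => Nat.zero_le _)
    (Finset.mem_range.2 (Nat.succ_pos n))

/-- The polynomials of degree at most `n` whose coefficient of `X ^ k` is in `Z_k`. -/
noncomputable def PV (n : ℕ) : Submodule ℚ ℝ[X] where
  carrier := {f | (∀ k, f.coeff k ∈ Z k) ∧ ∀ k, n < k → f.coeff k = 0}
  add_mem' := by
    rintro f g ⟨h1, h2⟩ ⟨h3, h4⟩
    refine ⟨fun k => ?_, fun k hk => ?_⟩
    · rw [coeff_add]; exact Submodule.add_mem _ (h1 k) (h3 k)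
    · rw [coeff_add, h2 k hk, h4 k hk, add_zero]
  zero_mem' := ⟨fun k => by rw [coeff_zero]; exact Submodule.zero_mem _, fun k _ => coeff_zero k⟩
  smul_mem' := by
    rintro c f ⟨h1, h2⟩
    refine ⟨fun k => ?_, fun k hk => ?_⟩
    · rw [coeff_smul]; exact Submodule.smul_mem _ _ (h1 k)
    · rw [coeff_smul, h2 k hk, smul_zero]

theorem mem_PV {n : ℕ} {f : ℝ[X]} :
    f ∈ PV n ↔ (∀ k, f.coeff k ∈ Z k) ∧ ∀ k, n < k → f.coeff k = 0 := Iff.rfl

theorem mul_mem_PV (j k : ℕ) (f g : ℝ[X]) (hf : f ∈ PV j) (hg : g ∈ PV k) : f * g ∈ PV (j + k) := by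
  rw [mem_PV] at hf hg ⊢
  refine ⟨fun l => ?_, fun l hl => ?_⟩
  · rw [coeff_mul]
    refine Submodule.sum_mem _ fun x hx => ?_
    have h := Pool.Agent.H447R2.MZ.mul_mem x.1 x.2 _ _ (hf.1 x.1) (hg.1 x.2)
    have hx := Finset.HasAntidiagonal.mem_antidiagonal.1 hx
    rwa [hx] at h
  · rw [coeff_mul]
    refine Finset.sum_eq_zero fun x hx => ?_
    have hx := Finset.HasAntidiagonal.mem_antidiagonal.1 hx
    rcases Nat.lt_or_ge j x.1 with h | h
    · rw [hf.2 _ h, zero_mul]
    · rw [hg.2 x.2 (by omega), mul_zero]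

/-- The coefficients. -/
noncomputable def toPi (n : ℕ) : PV n ≃ₗ[ℚ] (∀ k : Fin (n + 1), Z k.1) where
  toFun f k := ⟨f.1.coeff k.1, f.2.1 k.1⟩
  map_add' f g := by funext k; apply Subtype.ext; exact coeff_add _ _ _
  map_smul' c f := by funext k; apply Subtype.ext; exact coeff_smul _ _ _
  invFun z := ⟨∑ k : Fin (n + 1), monomial k.1 (z k : ℝ), by
    rw [mem_PV]
    refine ⟨fun k => ?_, fun k hk => ?_⟩
    · rw [finsetSum_coeff]
      refine Submodule.sum_mem _ fun j _ => ?_
      rw [coeff_monomial]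
      split_ifs with h
      · rw [← h]; exact (z j).2
      · exact Submodule.zero_mem _
    · rw [finsetSum_coeff]
      refine Finset.sum_eq_zero fun j _ => ?_
      rw [coeff_monomial, if_neg (by have := j.2; omega)]⟩
  left_inv f := by
    apply Subtype.ext
    ext l
    show (∑ k : Fin (n + 1), monomial k.1 (f.1.coeff k.1)).coeff l = f.1.coeff l
    rw [finsetSum_coeff]
    rcases Nat.lt_or_ge n l with h | h
    · rw [f.2.2 l h]
      refine Finset.sum_eq_zero fun j _ => ?_
      rw [coeff_monomial, if_neg (by have := j.2; omega)]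
    · rw [Finset.sum_eq_single (⟨l, by omega⟩ : Fin (n + 1))]
      · rw [coeff_monomial, if_pos rfl]
      · intro j _ hj
        rw [coeff_monomial, if_neg]
        intro h2
        exact hj (Fin.ext h2)
      · intro h2
        exact absurd (Finset.mem_univ _) h2
  right_inv z := by
    funext k
    apply Subtype.ext
    show (∑ j : Fin (n + 1), monomial j.1 (z j : ℝ)).coeff k.1 = z k
    rw [finsetSum_coeff, Finset.sum_eq_single k]
    · rw [coeff_monomial, if_pos rfl]
    · intro j _ hj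
      rw [coeff_monomial, if_neg]
      intro h2
      exact hj (Fin.ext h2)
    · intro h2
      exact absurd (Finset.mem_univ _) h2

instance (n : ℕ) : FiniteDimensional ℚ (PV n) := (toPi n).symm.finiteDimensional

theorem finrank_PV (n : ℕ) : Module.finrank ℚ (PV n) = A n := by
  rw [(toPi n).finrank_eq, Module.finrank_pi_fintype, A, Finset.sum_range]

/-- Evaluation at `1`. -/
noncomputable def ev : ℝ[X] →ₐ[ℚ] ℝ := (aeval (1 : ℝ)).restrictScalars ℚ

theorem ev_apply (f : ℝ[X]) : ev f = f.eval 1 := by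
  show aeval (1 : ℝ) f = _
  rw [coe_aeval_eq_eval]

theorem map_PV (n : ℕ) : (PV n).map ev.toLinearMap = V n := by
  apply le_antisymm
  · rintro _ ⟨f, hf, rfl⟩
    show ev f ∈ V n
    rw [ev_apply, eval_eq_sum_range' (n := n + 1)]
    · refine Submodule.sum_mem _ fun k hk => ?_
      rw [one_pow, mul_one]
      exact Submodule.mem_iSup_of_mem k (Submodule.mem_iSup_of_mem hk (hf.1 k))
    · refine lt_of_le_of_lt (natDegree_le_iff_coeff_eq_zero.2 fun k hk => hf.2 k hk) (by omega)
  · unfold V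
    refine iSup_le fun k => iSup_le fun hk => ?_
    intro x hx
    rw [Finset.mem_range] at hk
    refine ⟨monomial k x, ?_, ?_⟩
    · show monomial k x ∈ PV n
      rw [mem_PV]
      refine ⟨fun l => ?_, fun l hl => ?_⟩
      · rw [coeff_monomial]
        split_ifs with h
        · rw [← h]; exact hx
        · exact Submodule.zero_mem _
      · rw [coeff_monomial, if_neg (by omega)]
    · show ev (monomial k x) = x
      rw [ev_apply, eval_monomial, one_pow, mul_one]

theorem exists_relation {p : ℕ} (h : ¬ IsDirect p) : ∃ ξ ∈ PV p, ξ ≠ 0 ∧ ev ξ = 0 := by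
  unfold IsDirect at h
  push Not at h
  obtain ⟨z, h1, h2, j, hj, h3⟩ := h
  refine ⟨∑ k ∈ Finset.range (p + 1), monomial k (z k), ?_, ?_, ?_⟩
  · refine Submodule.sum_mem _ fun k hk => ?_
    rw [Finset.mem_range] at hk
    rw [mem_PV]
    refine ⟨fun l => ?_, fun l hl => ?_⟩
    · rw [coeff_monomial]
      split_ifs with h
      · rw [← h]; exact h1 k (by omega)
      · exact Submodule.zero_mem _
    · rw [coeff_monomial, if_neg (by omega)]
  · intro h0
    have := congrArg (fun f => coeff f j) h0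
    simp only [finsetSum_coeff, coeff_zero, coeff_monomial] at this
    rw [Finset.sum_ite_eq' (Finset.range (p + 1)) j z, if_pos (Finset.mem_range.2 (by omega))] at this
    exact h3 this
  · rw [map_sum, ← h2]
    refine Finset.sum_congr rfl fun k _ => ?_
    rw [ev_apply, eval_monomial, one_pow, mul_one]

theorem amp {p : ℕ} (h : ¬ IsDirect p) (n : ℕ) : Module.finrank ℚ (V (p + n)) + A n ≤ A (p + n) := by
  obtain ⟨ξ, h1, h2, h3⟩ := exists_relation h
  have := Pool.Agent.X27.MZ.amplify ev PV mul_mem_PV h1 h2 h3 n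
  rwa [map_PV, finrank_PV, finrank_PV] at this

theorem full {n : ℕ} (h : IsDirect n) : Module.finrank ℚ (V n) = A n := by
  rw [← map_PV, ← finrank_PV, Pool.Agent.X27.MZ.finrank_map_eq_iff]
  intro f hf h0
  rw [ev_apply, eval_eq_sum_range' (n := n + 1)] at h0
  · have h1 := h (fun k => f.coeff k) (fun j _ => hf.1 j) (by simpa using h0)
    ext k
    rw [coeff_zero]
    rcases Nat.lt_or_ge n k with h2 | h2
    · exact hf.2 k h2
    · exact h1 k h2
  · exact lt_of_le_of_lt (natDegree_le_iff_coeff_eq_zero.2 fun k hk => hf.2 k hk) (by omega)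

/-- **Direct, or very small.** -/
theorem result :
    (∀ p : ℕ, ¬ IsDirect p → ∀ n : ℕ,
      Module.finrank ℚ (V (n + p)) ≤ ∑ k ∈ Finset.range p, Module.finrank ℚ (Z (n + 1 + k))) ∧
    [∀ p, IsDirect p,
      ∀ n, Module.finrank ℚ (V n) = ∑ k ∈ Finset.range (n + 1), Module.finrank ℚ (Z k),
      ∀ p : ℕ, ∃ n : ℕ,
        ∑ k ∈ Finset.range p, Module.finrank ℚ (Z (n + 1 + k)) < Module.finrank ℚ (V (n + p)),
      Tendsto (fun n : ℕ => (Module.finrank ℚ (V n) : ℝ) /
        ∑ k ∈ Finset.range (n + 1), (Module.finrank ℚ (Z k) : ℝ)) atTop (𝓝 1)].TFAE := by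
  have hsum : ∀ n p : ℕ, A (p + n) =
      A n + ∑ k ∈ Finset.range p, Module.finrank ℚ (Z (n + 1 + k)) := by
    intro n p
    unfold A
    rw [show p + n + 1 = (n + 1) + p by omega, Finset.sum_range_add]
  have hfail : ∀ p : ℕ, ¬ IsDirect p → ∀ n : ℕ,
      Module.finrank ℚ (V (n + p)) ≤ ∑ k ∈ Finset.range p, Module.finrank ℚ (Z (n + 1 + k)) := by
    intro p hp n
    have h1 := amp hp n
    have h2 := hsum n p
    rw [show n + p = p + n by omega]
    omega
  have hA0 : ∀ n, (0 : ℝ) < A n := fun n => by exact_mod_cast (one_le_A n)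
  have hcast : ∀ n : ℕ, (∑ k ∈ Finset.range (n + 1), (Module.finrank ℚ (Z k) : ℝ)) = A n := by
    intro n; unfold A; push_cast; rfl
  refine ⟨hfail, ?_⟩
  tfae_have 1 → 2 := fun h n => full (h n)
  tfae_have 2 → 4 := by
    intro h
    refine tendsto_const_nhds.congr fun n => ?_
    rw [hcast, h n]
    exact (div_self (hA0 n).ne').symm
  tfae_have 4 → 1 := by
    intro h p
    by_contra hp
    -- the sum of the dimensions would grow too fast
    have h1 : ∀ᶠ n : ℕ in atTop, (1 - 1 / 4 ^ (p + 1) : ℝ) < (Module.finrank ℚ (V n) : ℝ) / A n := by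
      have h2 : Tendsto (fun n : ℕ => (Module.finrank ℚ (V n) : ℝ) / A n) atTop (𝓝 1) :=
        h.congr fun n => by rw [hcast]
      refine h2.eventually (eventually_gt_nhds ?_)
      have : (0 : ℝ) < 1 / 4 ^ (p + 1) := by positivity
      linarith
    obtain ⟨N, hN⟩ := eventually_atTop.1 h1
    have h3 : ∀ n, N ≤ n → (4 : ℝ) ^ (p + 1) * A n ≤ A (n + p) := by
      intro n hn
      have h4 := hN (n + p) (by omega)
      have h5 := amp hp n
      rw [lt_div_iff₀ (hA0 _)] at h4
      have h6 : (Module.finrank ℚ (V (n + p)) : ℝ) + A n ≤ A (n + p) := by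
        rw [show n + p = p + n by omega]
        exact_mod_cast h5
      have h7 : (A n : ℝ) ≤ 1 / 4 ^ (p + 1) * A (n + p) := by nlinarith
      calc (4 : ℝ) ^ (p + 1) * A n ≤ 4 ^ (p + 1) * (1 / 4 ^ (p + 1) * A (n + p)) := by gcongr
        _ = A (n + p) := by field_simp
    have h8 : ∀ j : ℕ, ((4 : ℝ) ^ (p + 1)) ^ j ≤ A (N + j * p) := by
      intro j
      induction j with
      | zero =>
        simp only [pow_zero, zero_mul, add_zero]
        exact_mod_cast one_le_A N
      | succ j ih =>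
        have h9 := h3 (N + j * p) (by omega)
        have h10 : N + (j + 1) * p = N + j * p + p := by ring
        rw [h10, pow_succ, mul_comm]
        exact (mul_le_mul_of_nonneg_left ih (by positivity)).trans h9
    have h9 : ∀ j : ℕ, (4 : ℝ) ^ ((p + 1) * j) ≤ 2 ^ (N + j * p + 1) := by
      intro j
      rw [pow_mul]
      refine (h8 j).trans ?_
      exact_mod_cast A_le (N + j * p)
    have h10 := h9 (N + 1)
    rw [show (4 : ℝ) = 2 ^ 2 by norm_num, ← pow_mul] at h10
    have h11 := (pow_le_pow_iff_right₀ (by norm_num : (1 : ℝ) < 2)).1 h10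
    nlinarith
  tfae_have 1 → 3 := by
    intro h p
    refine ⟨0, ?_⟩
    have e : V (0 + p) = V p := by rw [Nat.zero_add]
    rw [e, full (h p)]
    have h1 := hsum 0 p
    have h2 := one_le_A 0
    rw [add_zero] at h1
    omega
  tfae_have 3 → 1 := by
    intro h p
    by_contra hp
    obtain ⟨n, hn⟩ := h p
    exact absurd (hfail p hp n) (not_le.2 hn)
  tfae_finish

end Pool.Agent.Results.MP_4d52ff_nt.DirectOrSmall
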