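import Mathlib
import Pool.Agent.X142.MZ.Var

set_option autoImplicit false

namespace Pool.Agent.Results.MP_4d52ff_nt.HurwitzArguments

open NumberField MvPolynomial

/-- The multiple Hurwitz zeta function
`ζ(s₁,…,s_r; z) = Σ_{0 ≤ k₁ < k₂ < … < k_r} Π (z + k_i)^{-s_i}`, defined by summing over `k₁` last:
`ζ(s₁,…,s_r; z) = Σ_{n ≥ 0} (z+n)^{-s₁} ζ(s₂,…,s_r; z+n+1)`. At `z = 1` it is the multiple zeta value. -/
noncomputable def mhz : List ℕ → ℂ → ℂ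
  | [], _ => 1
  | s :: w, z => ∑' n : ℕ, ((z + n) ^ s)⁻¹ * mhz w (z + n + 1)

/-- Admissible indices: positive entries, the last entry is not `1`; the empty index is admissible. -/
def Adm (s : List ℕ) : Prop := (∀ a ∈ s, 1 ≤ a) ∧ s.getLast? ≠ some 1

/-- `HeightLe F T x`: `x = a / c` with algebraic integers `a`, `c` of `F`, all of whose conjugates are at
most `T` in absolute value. -/
def HeightLe (F : Type) [Field F] [NumberField F] (T : ℝ) (x : F) : Prop :=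
  ∃ a c : 𝓞 F, c ≠ 0 ∧ (∀ φ : F →+* ℂ, ‖φ a‖ ≤ T ∧ ‖φ c‖ ≤ T) ∧ x = a / c

lemma mhz_eq : ∀ (w : List ℕ) (z : ℂ), mhz w z = Pool.Agent.X142.MZ.mhz w z
  | [], _ => rfl
  | s :: w, z => by
    rw [mhz, Pool.Agent.X142.MZ.mhz]
    exact tsum_congr fun n => by rw [mhz_eq w]

/-- The sum of the spaces of different weights is direct at almost all arguments, with a bound: the
component of weight `j` is at most `T ^ B` times the whole sum. -/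
theorem result (I : Finset (List ℕ)) (hI : ∀ s ∈ I, Adm s) (L : Set ℂ) (hL : IsCompact L)
    (hL0 : ∀ z ∈ L, ∀ n : ℕ, z ≠ -n) (m g : ℕ) (A ε : ℝ) (hε : 0 < ε) :
    ∃ B C₁ T₀ : ℝ, ∀ (F : Type) [Field F] [NumberField F], Module.finrank ℚ F ≤ m →
      ∀ (ι : F →+* ℂ) (ξ : Fin g → ℂ) (T : ℝ), T₀ ≤ T →
      ∃ X : Finset F, (X.card : ℝ) ≤ C₁ * T ^ ε ∧ ∀ x : F, ι x ∈ L → HeightLe F T x → x ∉ X →
        ∀ c : List ℕ → Fin g → 𝓞 F, (∀ s ∈ I, ∀ i (φ : F →+* ℂ), ‖φ (c s i)‖ ≤ T ^ A) →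
          ∀ j : ℕ, ‖∑ s ∈ I with s.sum = j, (∑ i, ξ i * ι (c s i)) * mhz s (ι x)‖ ≤
            T ^ B * ‖∑ s ∈ I, (∑ i, ξ i * ι (c s i)) * mhz s (ι x)‖ := by
  obtain ⟨B, C₁, T₀, H⟩ := Pool.Agent.X142.MZ.subsum I hI L hL hL0 m g A ε hε
  refine ⟨B, C₁, T₀, fun F _ _ hF ι ξ T hT => ?_⟩
  obtain ⟨X, hX, h⟩ := H F hF ι ξ T hT
  refine ⟨X, hX, fun x hxL hx hxX c hc j => ?_⟩
  simp only [mhz_eq]
  exact (h x hxL hx hxX c hc).2 _ (Finset.filter_subset _ _)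

end Pool.Agent.Results.MP_4d52ff_nt.HurwitzArguments
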