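import Pool.Agent.Results.MP_4d52ff_nt.AlmostDirectness
import Pool.Agent.X174.WinInd

/-!
# Directness of the sum of the spaces of multiple zeta values: ALL indices in cubes around thin sequences of points

Patterns are indices whose entries are fixed numbers or linear forms `b + u_1 s_1 + ⋯ + u_k s_k` in variables. `InCubes W` is
the statement: for every sequence `v ≥ 1` of exponent of convergence at most `τ` (for `v_i = (i + 1) ^ a` this is `1 / a`, for
`v_i = b ^ i` it is `0`) and every `ρ < 1` there is ONE set `E ⊂ ℝ^k` of Hausdorff dimension at most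
`(k - 1 + τ) / (1 - ρ)` such that for each `x` outside `E` with positive coordinates, all patterns `w_1, …, w_r` whose fixed
parts have weight at most `W` and all `C`, for all but finitely many `i`: for ALL natural numbers `s_1, …, s_k` with
`|s_j - x_j v_i| ≤ v_i ^ ρ` all integer linear relations between the values `ζ(w_l(s))` with coefficients of absolute value
at most `C ^ v_i` are homogeneous: their parts of each weight are relations.

For every `W` the sum `Z_0 + ⋯ + Z_W` of the spaces of the multiple zeta values of weights `0, …, W` is direct if and only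
if `InCubes W` holds, and `InCubes 3` holds.
-/

set_option autoImplicit false

namespace Pool.Agent.Results.MP_4d52ff_nt.IndicesInCubes

open AlmostDirectness (mzv IsIndex weightSpace IsDirect Pattern index fixedPart Exceptional AlmostDirect)

/-- the exponent of convergence of the sequence `v` is at most `τ` -/
def ExpLe (v : ℕ → ℝ) (τ : ℝ) : Prop := ∀ t : ℝ, τ < t → Summable (fun n : ℕ => (v n) ^ (-t))

/-- For all `k ≥ 1`, all sequences `v ≥ 1` of exponent of convergence at most `τ` and all `ρ < 1` there is a set `E ⊂ ℝ^k`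
of Hausdorff dimension at most `(k - 1 + τ) / (1 - ρ)` such that for all `x` outside `E` with positive coordinates, all
patterns with fixed parts of weight at most `W` and all `C`, for all but finitely many `i`, no tuple `s` with
`|s_j - x_j v_i| ≤ v_i ^ ρ` has an inhomogeneous relation with coefficients of absolute value at most `C ^ v_i`. -/
def InCubes (W : ℕ) : Prop :=
  ∀ (k : ℕ), 1 ≤ k → ∀ (v : ℕ → ℝ) (τ ρ : ℝ), (∀ i, 1 ≤ v i) → 0 ≤ τ → ExpLe v τ → ρ < 1 →
    ∃ E : Set (Fin k → ℝ), dimH E ≤ ENNReal.ofReal (((k : ℝ) - 1 + τ) / (1 - ρ)) ∧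
      ∀ x : Fin k → ℝ, x ∉ E → (∀ j, 0 < x j) →
        ∀ (r : ℕ) (w : Fin r → List (ℕ × (Fin k → ℕ))), (∀ l, Pattern (w l)) →
          (∀ l, (fixedPart (w l)).sum ≤ W) → ∀ C : ℝ, 1 ≤ C → ∃ i₀ : ℕ, ∀ i : ℕ, i₀ ≤ i →
            ∀ s : Fin k → ℕ, (∀ j, |(s j : ℝ) - x j * v i| ≤ (v i) ^ ρ) → ¬ Exceptional (C ^ (v i)) w s

theorem cubes_of_direct {W : ℕ} (hD : IsDirect W) : InCubes W := by
  intro k hk v τ ρ hv hτ hE hρ
  have hA := AlmostDirectness.almost_of_direct hD
  have key : ∀ z : (r : ℕ) × (Fin r → List (ℕ × (Fin k → ℕ))), ∃ E : Set (Fin k → ℝ),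
      dimH E ≤ ENNReal.ofReal (((k : ℝ) - 1 + τ) / (1 - ρ)) ∧
      ((∀ l, Pattern (z.2 l)) → (∀ l, (fixedPart (z.2 l)).sum ≤ W) →
        ∀ x : Fin k → ℝ, x ∉ E → (∀ j, 0 < x j) → ∀ C : ℝ, 1 ≤ C → ∃ i₀ : ℕ, ∀ i : ℕ, i₀ ≤ i → ∀ s : Fin k → ℕ,
          (∀ j, |(s j : ℝ) - x j * v i| ≤ (v i) ^ ρ) → ¬ Exceptional (C ^ (v i)) z.2 s) := by
    rintro ⟨r, w⟩
    dsimp only
    by_cases hw : (∀ l, Pattern (w l)) ∧ ∀ l, (fixedPart (w l)).sum ≤ W
    · obtain ⟨E, h1, h2⟩ := Pool.Agent.X174.winInd hk (fun H s => Exceptional H w s)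
        (fun H H' s hH ⟨n, c, hc, h3⟩ => ⟨n, c, fun l => (hc l).trans hH, h3⟩)
        (fun κ => hA k r κ w hw.1 hw.2) hv hτ hE hρ
      exact ⟨E, h1, fun _ _ => h2⟩
    · exact ⟨∅, by simp, fun h h' => absurd ⟨h, h'⟩ hw⟩
  choose Es h1 h2 using key
  refine ⟨⋃ z, Es z, ?_, fun x hx hx0 r w hw hW C hC => ?_⟩
  · rw [dimH_iUnion]
    exact iSup_le h1
  · exact h2 ⟨r, w⟩ hw hW x (fun hm => hx (Set.mem_iUnion.2 ⟨_, hm⟩)) hx0 C hC

open Finset Pool.Agent.X90.DC in
/-- the converse: constant patterns -/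
theorem direct_of_cubes {W : ℕ} (hA : InCubes W) : IsDirect W := by
  classical
  intro z hz hsum
  have h1 : ∀ j, j ≤ W → ∃ l : List ℕ →₀ ℚ, l ∈ Finsupp.supported ℚ ℚ
      {p : List ℕ | IsIndex p ∧ p.sum = j} ∧ Finsupp.linearCombination ℚ mzv l = z j := by
    intro j hj
    have h2 := hz j hj
    rw [weightSpace, Finsupp.mem_span_image_iff_linearCombination] at h2
    exact h2
  choose! l hl1 hl2 using h1
  set S : Finset (List ℕ) := (range (W + 1)).biUnion fun j => (l j).support with hS
  have hSp : ∀ p ∈ S, IsIndex p ∧ p.sum ≤ W := by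
    intro p hp
    rw [hS, mem_biUnion] at hp
    obtain ⟨j, hj, hp⟩ := hp
    rw [mem_range] at hj
    have h2 := (Finsupp.mem_supported ℚ _).1 (hl1 j (by omega)) hp
    exact ⟨h2.1, by rw [h2.2]; omega⟩
  obtain ⟨Δ, hΔ, a, ha⟩ := Pool.Agent.X90.DA.common_den (fun p : S => l p.1.sum p.1)
  -- the homogeneous parts
  have hpart : ∀ n ≤ W, ∑ p ∈ S with p.sum = n, ((l p.sum p : ℚ) : ℝ) * mzv p = z n := by
    intro n hn
    rw [← hl2 n hn, Finsupp.linearCombination_apply, Finsupp.sum]
    symm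
    refine (sum_subset (s₁ := (l n).support) (fun p hp => ?_) fun p hp hp' => ?_).trans
      (sum_congr rfl fun p hp => ?_)
    · have h2 := (Finsupp.mem_supported ℚ _).1 (hl1 n hn) hp
      rw [mem_filter, hS, mem_biUnion]
      exact ⟨⟨n, mem_range.2 (by omega), hp⟩, h2.2⟩
    · rw [Finsupp.notMem_support_iff.1 hp', zero_smul]
    · rw [mem_filter] at hp
      rw [hp.2, Rat.smul_def]
  set e := S.equivFin with he
  set w : Fin S.card → List (ℕ × (Fin 1 → ℕ)) := fun i => fp (e.symm i).1 with hw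
  have hfix : ∀ p : List ℕ, fixedPart (fp p : List (ℕ × (Fin 1 → ℕ))) = p := by
    intro p
    induction p with
    | nil => rfl
    | cons b p ih =>
      show fixedPart ((b, 0) :: fp p) = _
      rw [fixedPart, if_pos rfl, ih]
  have hindex : ∀ (s : Fin 1 → ℕ) i, index s (w i) = (e.symm i).1 := fun s i => ix_fp s _
  set H : ℝ := 1 + ∑ i : Fin S.card, |(a (e.symm i) : ℝ)| with hH
  have hH1 : 1 ≤ H := by
    rw [hH]
    exact le_add_of_nonneg_right (by positivity)
  obtain ⟨E, hE1, hE2⟩ := hA 1 le_rfl (fun n => (2 : ℝ) ^ n) 0 0 (fun n => one_le_pow₀ (by norm_num)) le_rfl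
    (Pool.Agent.Y854.GM.expLe_geom 2 (by norm_num)) one_pos
  obtain ⟨N, s, hne⟩ := Pool.Agent.X174.pick (P := fun V s => ¬ Exceptional (H ^ V) w s) hE1 fun x hx hx0 =>
    hE2 x hx hx0 S.card w (fun i => by
      have h2 := (hSp _ (e.symm i).2).1
      constructor
      · intro u hu
        rw [hw] at hu
        rcases hp : (e.symm i).1 with _ | ⟨b, q⟩
        · simp only [hp] at hu
          simp [fp] at hu
        · simp only [hp] at hu
          rw [hp] at h2
          have hu' : u = (b, 0) := by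
            simp only [fp, List.map_cons, List.head?_cons, Option.mem_some_iff] at hu
            exact hu.symm
          rw [hu']
          exact Or.inr h2.1
      · intro u hu
        have hu' : u ∈ (fp (e.symm i).1 : List (ℕ × (Fin 1 → ℕ))) := hu
        rw [fp, List.mem_map] at hu'
        obtain ⟨b, hb, rfl⟩ := hu'
        right
        rcases hp : (e.symm i).1 with _ | ⟨b', q⟩
        · rw [hp] at hb
          exact absurd hb List.not_mem_nil
        · rw [hp] at hb h2
          rcases List.mem_cons.1 hb with rfl | hb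
          · exact le_trans (by norm_num) h2.1
          · exact h2.2 b hb) (fun i => by
        rw [hw, hfix]
        exact (hSp _ (e.symm i).2).2) H hH1
  have hV1 : (1 : ℝ) ≤ (2 : ℝ) ^ N := one_le_pow₀ (by norm_num)
  -- the relation
  have hsumS : ∀ (f : List ℕ → ℝ) (P : List ℕ → Prop) [DecidablePred P],
      ∑ i : Fin S.card with P (e.symm i).1, f (e.symm i).1 = ∑ p ∈ S with P p, f p := by
    intro f P _
    rw [sum_filter, sum_filter, ← sum_coe_sort S, ← e.symm.sum_comp]
  have hval : ∀ (i : Fin S.card), ((a (e.symm i) : ℤ) : ℝ) =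
      (Δ : ℝ) * ((l (e.symm i).1.sum (e.symm i).1 : ℚ) : ℝ) := by
    intro i
    have h2 := congrArg (fun y : ℚ => (y : ℝ)) (ha (e.symm i))
    push_cast at h2
    exact h2.symm
  have htot : ∑ i, ((a (e.symm i) : ℤ) : ℝ) * mzv (index s (w i)) = 0 := by
    have h2 : ∀ i, ((a (e.symm i) : ℤ) : ℝ) * mzv (index s (w i)) =
        (fun p : List ℕ => (Δ : ℝ) * (((l p.sum p : ℚ) : ℝ) * mzv p)) (e.symm i).1 := by
      intro i
      rw [hindex, hval i]
      ring
    have h3 := hsumS (fun p : List ℕ => (Δ : ℝ) * (((l p.sum p : ℚ) : ℝ) * mzv p))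
      (fun _ => True)
    rw [filter_true, filter_true] at h3
    rw [sum_congr rfl fun i _ => h2 i, h3, ← mul_sum,
      ← sum_fiberwise_of_maps_to (s := S) (t := range (W + 1)) (g := fun p => p.sum)
        (fun p hp => mem_range.2 (Nat.lt_succ_of_le (hSp p hp).2)),
      sum_congr rfl fun n hn => hpart n (by rw [mem_range] at hn; omega), hsum, mul_zero]
  intro n hn
  by_contra hzn
  apply hne
  refine ⟨n, fun i => a (e.symm i), fun i => ?_, htot, ?_⟩
  · have h2 := single_le_sum (f := fun i : Fin S.card => |(a (e.symm i) : ℝ)|)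
      (fun _ _ => abs_nonneg _) (mem_univ i)
    have h3 : H ≤ H ^ ((2 : ℝ) ^ N) := by
      calc H = H ^ (1 : ℝ) := (Real.rpow_one H).symm
        _ ≤ H ^ ((2 : ℝ) ^ N) := Real.rpow_le_rpow_of_exponent_le hH1 hV1
    refine le_trans ?_ h3
    rw [hH]
    linarith
  · have h2 : ∀ i, ((a (e.symm i) : ℤ) : ℝ) * mzv (index s (w i)) =
        (fun p : List ℕ => (Δ : ℝ) * (((l p.sum p : ℚ) : ℝ) * mzv p)) (e.symm i).1 := by
      intro i
      rw [hindex, hval i]
      ring
    have h3 := hsumS (fun p : List ℕ => (Δ : ℝ) * (((l p.sum p : ℚ) : ℝ) * mzv p))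
      (fun p => p.sum = n)
    simp only [hindex s]
    simp only [hindex s] at h2
    rw [sum_congr rfl fun i _ => h2 i, h3, ← mul_sum, hpart n hn]
    exact mul_ne_zero (by exact_mod_cast hΔ) hzn

/-- **Theorem.** For every `W`, the sum `Z_0 + ⋯ + Z_W` is direct if and only if `InCubes W` holds: for each `x` with positive
coordinates outside a small set, for ALL tuples in cubes around the points `x v_i` there are no inhomogeneous relations of
height at most `C ^ v_i` between the values at patterns with fixed parts of weight at most `W`. `InCubes 3` holds. The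
sequences `v_i = (i + 1) ^ a` and `v_i = b ^ i` have exponent of convergence at most `1 / a` and `0`. -/
theorem result : (∀ W : ℕ, IsDirect W ↔ InCubes W) ∧ InCubes 3 ∧
    (∀ a : ℝ, 0 < a → ExpLe (fun n : ℕ => ((n : ℝ) + 1) ^ a) (1 / a)) ∧
    (∀ b : ℝ, 1 < b → ExpLe (fun n : ℕ => b ^ n) 0) :=
  ⟨fun _ => ⟨cubes_of_direct, direct_of_cubes⟩, cubes_of_direct AlmostDirectness.direct_three,
    fun κ hκ => Pool.Agent.Y854.GM.expLe_pow κ hκ, fun b hb => Pool.Agent.Y854.GM.expLe_geom b hb⟩

end Pool.Agent.Results.MP_4d52ff_nt.IndicesInCubes
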